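import Pool.Agent.Lib.MP_e0c1ed_co.Ab7

/-!
# Abelian quotients of transitive automorphism groups of extremal trilateral-free configurations

Let `k ≥ 3` be odd and let a trilateral-free configuration `(n_k)` with `n = k (k - 1)² + k` be given (a generalized
quadrangle of order `(s, s)`, `s = k - 1` even). Let `G` be a group of automorphisms transitive on the points and `N` a normal
subgroup with abelian quotient `G / N` (for example the derived subgroup of `G`), with `ν` orbits on the points. Then one of the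
following holds:

* `ν` divides `k`, and every line meets every orbit of `N` in exactly `k / ν` points (the orbits are `k / ν`-ovoids);
* `ν` divides `(k - 1)² + 1`, and every point `x` is collinear with exactly `((k - 1)² + 1) / ν` points of every orbit of `N`
  that does not contain `x` (the orbits are tight sets).

The same holds with points and lines interchanged.
-/

set_option autoImplicit false

namespace Pool.Agent.Results.MP_e0c1ed_co.AbelianQuotients

open Pool.Agent.Results.MP_e0c1ed_co.SelfDualSquare Pool.Agent.Lib.MP_e0c1ed_co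

/-- The group of automorphisms: pairs of a permutation of the points and a permutation of the lines which preserve
incidence. -/
def autGroup {P L : Type*} (I : P → L → Prop) : Subgroup (Equiv.Perm P × Equiv.Perm L) where
  carrier := {g | ∀ p l, I (g.1 p) (g.2 l) ↔ I p l}
  mul_mem' := by
    intro g h hg hh p l
    change I (g.1 (h.1 p)) (g.2 (h.2 l)) ↔ I p l
    rw [hg, hh]
  one_mem' := fun p l => Iff.rfl
  inv_mem' := by
    intro g hg p l
    change I (g.1⁻¹ p) (g.2⁻¹ l) ↔ I p l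
    rw [← hg]
    change I (g.1 (g.1.symm p)) (g.2 (g.2.symm l)) ↔ I p l
    rw [Equiv.apply_symm_apply, Equiv.apply_symm_apply]

private theorem half {P L : Type*} [Finite P] [Finite L] (I : P → L → Prop) (n k : ℕ)
    (hI : IsConfiguration I n k) (hT : TrilateralFree I) (hn : n = k * (k - 1) ^ 2 + k) (hodd : Odd k)
    (hk : 3 ≤ k) (G : Subgroup (Equiv.Perm P × Equiv.Perm L)) (hG : ∀ g ∈ G, ∀ p l, I (g.1 p) (g.2 l) ↔ I p l)
    (ht : ∀ p q : P, ∃ g ∈ G, g.1 p = q) (N : Subgroup G) (hN : N.Normal)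
    (hab : ∀ g h : G, g * h * g⁻¹ * h⁻¹ ∈ N) :
    ∃ ν : ℕ, 0 < ν ∧ (∀ x : P, n = ν * {y | ∃ g ∈ N, g.1.1 x = y}.ncard) ∧
      ((∀ (y : P) (l : L), ν * {p | p ∈ {y' | ∃ g ∈ N, g.1.1 y = y'} ∧ I p l}.ncard = k) ∨
        (ν ∣ (k - 1) ^ 2 + 1 ∧ ∀ x y : P, x ∉ {y' | ∃ g ∈ N, g.1.1 y = y'} →
          ν * {p | p ∈ {y' | ∃ g ∈ N, g.1.1 y = y'} ∧ ∃ l, I x l ∧ I p l}.ncard = (k - 1) ^ 2 + 1)) := by
  classical
  let i1 : MulAction G P :=
    MulAction.compHom P ((MonoidHom.fst (Equiv.Perm P) (Equiv.Perm L)).comp G.subtype)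
  let i2 : MulAction G L :=
    MulAction.compHom L ((MonoidHom.snd (Equiv.Perm P) (Equiv.Perm L)).comp G.subtype)
  have e1 : ∀ (g : G) (p : P), g • p = g.1.1 p := fun g p => rfl
  have e2 : ∀ (g : G) (l : L), g • l = g.1.2 l := fun g l => rfl
  have a1 : ∀ (g : G) (p : P) (l : L), I (g • p) (g • l) ↔ I p l := by
    intro g p l
    rw [e1, e2]
    exact hG g.1 g.2 p l
  have a3 : ∀ p q : P, ∃ g : G, g • p = q := by
    intro p q
    obtain ⟨g, hg, hgp⟩ := ht p q
    exact ⟨⟨g, hg⟩, hgp⟩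
  have a4 : ∀ x : P, (MulAction.orbit N x) = {y | ∃ g ∈ N, g.1.1 x = y} := by
    intro x
    ext y
    constructor
    · rintro ⟨g, hg⟩
      exact ⟨g.1, g.2, hg⟩
    · rintro ⟨g, hg, h⟩
      exact ⟨⟨g, hg⟩, h⟩
  have h := Ab7.ovoid_or_tight hI hT hn (Nat.odd_iff.1 hodd) hk a1 a3 N hab
  simp only [a4] at h
  exact h

private theorem dualize {P L : Type*} (I : P → L → Prop) (n k : ℕ) (hI : IsConfiguration I n k)
    (hT : TrilateralFree I) : IsConfiguration (fun l p => I p l) n k ∧ TrilateralFree (fun l p => I p l) := by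
  refine ⟨⟨hI.card_lines, hI.card_points, hI.card_through_point, hI.card_on_line, ?_⟩, ?_⟩
  · intro l m p q hlm h1 h2 h3 h4
    by_contra hpq
    exact hlm (hI.unique_line p q l m hpq h1 h3 h2 h4)
  · intro l m r p q s h1 h2 h3 h4 h5 h6 h7
    obtain ⟨a1, a2, a3, a4, a5, a6⟩ := h7
    exact hT p q s m r l h4 h5 h6 h2 h3 h1 ⟨a2, a3, a4, a5, a6, a1⟩

/-- **Theorem.** Let `k ≥ 3` be odd, `I` a trilateral-free configuration `(n_k)` with `n = k (k - 1)² + k`, `G` a group of
automorphisms of `I` and `N` a normal subgroup of `G` with abelian quotient `G / N`. If `G` is transitive on the points, let `ν` be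
the number of point orbits of `N` (all of length `n / ν`). Then either every line meets every orbit of `N` in exactly `k / ν`
points, or `ν` divides `(k - 1)² + 1` and every point `x` is collinear with exactly `((k - 1)² + 1) / ν` points of every orbit of
`N` not containing `x`. If `G` is transitive on the lines, then the dual statement holds. -/
theorem result {P L : Type*} (I : P → L → Prop) (n k : ℕ) (hI : IsConfiguration I n k)
    (hT : TrilateralFree I) (hn : n = k * (k - 1) ^ 2 + k) (hodd : Odd k) (hk : 3 ≤ k)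
    (G : Subgroup (Equiv.Perm P × Equiv.Perm L)) (hG : G ≤ autGroup I) (N : Subgroup G) (hN : N.Normal)
    (hab : ∀ g h : G, g * h * g⁻¹ * h⁻¹ ∈ N) :
    ((∀ p q : P, ∃ g ∈ G, g.1 p = q) →
      ∃ ν : ℕ, 0 < ν ∧ (∀ x : P, n = ν * {y | ∃ g ∈ N, g.1.1 x = y}.ncard) ∧
        ((∀ (y : P) (l : L), ν * {p | p ∈ {y' | ∃ g ∈ N, g.1.1 y = y'} ∧ I p l}.ncard = k) ∨
          (ν ∣ (k - 1) ^ 2 + 1 ∧ ∀ x y : P, x ∉ {y' | ∃ g ∈ N, g.1.1 y = y'} →
            ν * {p | p ∈ {y' | ∃ g ∈ N, g.1.1 y = y'} ∧ ∃ l, I x l ∧ I p l}.ncard = (k - 1) ^ 2 + 1))) ∧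
    ((∀ l m : L, ∃ g ∈ G, g.2 l = m) →
      ∃ ν : ℕ, 0 < ν ∧ (∀ x : L, n = ν * {y | ∃ g ∈ N, g.1.2 x = y}.ncard) ∧
        ((∀ (y : L) (p : P), ν * {l | l ∈ {y' | ∃ g ∈ N, g.1.2 y = y'} ∧ I p l}.ncard = k) ∨
          (ν ∣ (k - 1) ^ 2 + 1 ∧ ∀ x y : L, x ∉ {y' | ∃ g ∈ N, g.1.2 y = y'} →
            ν * {l | l ∈ {y' | ∃ g ∈ N, g.1.2 y = y'} ∧ ∃ p, I p x ∧ I p l}.ncard = (k - 1) ^ 2 + 1))) := by
  classical
  have : Finite P := Nat.finite_of_card_ne_zero (by rw [hI.card_points]; omega)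
  have : Finite L := Nat.finite_of_card_ne_zero (by rw [hI.card_lines]; omega)
  refine ⟨fun ht => half I n k hI hT hn hodd hk G (fun g hg => hG hg) ht N hN hab, fun ht => ?_⟩
  obtain ⟨hI', hT'⟩ := dualize I n k hI hT
  let sw : Equiv.Perm P × Equiv.Perm L ≃* Equiv.Perm L × Equiv.Perm P := MulEquiv.prodComm
  let G' : Subgroup (Equiv.Perm L × Equiv.Perm P) := G.map sw.toMonoidHom
  let e : G ≃* G' := G.equivMapOfInjective sw.toMonoidHom sw.injective
  have h1 : (N.map e.toMonoidHom).Normal := hN.map e.toMonoidHom e.surjective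
  have h5 : ∀ x : L, {y | ∃ g ∈ N.map e.toMonoidHom, g.1.1 x = y} = {y | ∃ g ∈ N, g.1.2 x = y} := by
    intro x
    ext y
    constructor
    · rintro ⟨_, ⟨g, hg, rfl⟩, h⟩
      exact ⟨g, hg, h⟩
    · rintro ⟨g, hg, h⟩
      exact ⟨e g, ⟨g, hg, rfl⟩, h⟩
  have h := half (fun l p => I p l) n k hI' hT' hn hodd hk G' (by
    rintro _ ⟨g, hg, rfl⟩ l p
    exact hG hg p l) (by
    intro l m
    obtain ⟨g, hg, hgl⟩ := ht l m
    exact ⟨sw g, ⟨g, hg, rfl⟩, hgl⟩) (N.map e.toMonoidHom) h1 (by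
    intro g h
    refine ⟨e.symm g * e.symm h * (e.symm g)⁻¹ * (e.symm h)⁻¹, hab _ _, ?_⟩
    show e _ = _
    simp)
  simp only [h5] at h
  exact h

end Pool.Agent.Results.MP_e0c1ed_co.AbelianQuotients
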