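import Pool.Agent.Lib.MP_e0c1ed_co.Tr
import Pool.Agent.Lib.MP_e0c1ed_co.AS3
import Pool.Agent.Lib.MP_e0c1ed_co.M8
import Pool.Agent.Lib.MP_e0c1ed_co.AS5
import Pool.Agent.Lib.MP_e0c1ed_co.J7
import Pool.Agent.Lib.MP_e0c1ed_co.Z8

/-!
# Flag transitive generalized quadrangles of order `(s, s)`, `s` even, have an almost simple group

Let `k ≥ 3` be odd and let a trilateral-free configuration `(n_k)` with `n = k (k - 1)² + k` be given (a generalized
quadrangle of order `(s, s)`, `s = k - 1` even). If a group `G` of automorphisms is flag transitive, then `G` is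
almost simple: it has a nonabelian simple normal subgroup `T` with trivial centralizer, and `T` lies in every normal
subgroup `N ≠ 1`. For every normal subgroup `N ≠ 1` there is a divisor `e ≥ 3` of `k` such that every line has exactly
`e` points in every point orbit of `N` (so `N` has `k / e` point orbits, of length `e (s² + 1)`), and dually; if `k`
is a prime, then `N` is flag transitive. Now let `G` be transitive on the points only. For every normal subgroup
`N ≠ 1` of `G` the length `m` of a point orbit divides `n`, is larger than `2 s`, different from `s² + 1` and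
satisfies `c k ≤ s² - 1 + m`, `c` the remainder of `m - 1` modulo `2 s`. A prime factor `p` of `s² + 1` is called good
if `p²` does not divide `s² + 1` and the residue `r` of `s` modulo `p` satisfies `r² > s`; every prime factor `p > k`
is good. If `s² + 1` is a prime (for instance for the open cases `k = 7, 11, 15, 21`), or if `k` is a prime and no
divisor `m` of `s² + 1` satisfies these conditions (for instance for the open case `k = 19`), or if `k` is a prime and
for some good prime `p` no divisor `m` of `(s² + 1) / p` satisfies these conditions (for instance if there is a prime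
factor `p > k`, as in the open cases `k = 13, 23, 29, 31`), or if `k` is a prime and `k²` divides the order of `G`,
then `G` is almost simple. Finally, if `k` and `s² + 1` are primes, then every normal subgroup `N ≠ 1` is transitive
on the points. The same holds with points and lines interchanged.
-/

set_option autoImplicit false

namespace Pool.Agent.Results.MP_e0c1ed_co.NormalOrbits

open Pool.Agent.Results.MP_e0c1ed_co.SelfDualSquare Pool.Agent.Lib.MP_e0c1ed_co Pool.Agent.Lib.MP_e0c1ed_co.Tr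

/-- `T` is a nonabelian simple normal subgroup of `G` with trivial centralizer. -/
def IsSocle {G : Type*} [Group G] (T : Subgroup G) : Prop :=
  T.Normal ∧ IsSimpleGroup T ∧ (∃ a b : T, a * b ≠ b * a) ∧ Subgroup.centralizer (T : Set G) = ⊥

/-- The prime factors `p` of `s² + 1` used below: `p²` does not divide `s² + 1`, and the square of the residue of `s`
modulo `p` is larger than `s`. Every prime factor `p > s` is one. -/
def Good (s p : ℕ) : Prop :=
  p.Prime ∧ p ∣ s ^ 2 + 1 ∧ ¬ p ^ 2 ∣ s ^ 2 + 1 ∧ s < (s % p) ^ 2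

private theorem half {P L : Type*} [Finite P] [Finite L] (I : P → L → Prop) (n k : ℕ)
    (hI : IsConfiguration I n k) (hT : TrilateralFree I) (hn : n = k * (k - 1) ^ 2 + k) (hodd : Odd k)
    (hk : 3 ≤ k) (G : Subgroup (Equiv.Perm P × Equiv.Perm L)) (hG : ∀ g ∈ G, ∀ p l, I (g.1 p) (g.2 l) ↔ I p l)
    (ht : ∀ p q : P, ∃ g ∈ G, g.1 p = q)
    (hc : ((k - 1) ^ 2 + 1).Prime ∨
      k.Prime ∧ (k ^ 2 ∣ Nat.card G ∨ (∀ m : ℕ, m ∣ (k - 1) ^ 2 + 1 → ¬ OrbitLength (k - 1) m) ∨
        ∃ p : ℕ, Good (k - 1) p ∧ ∀ m : ℕ, m ∣ ((k - 1) ^ 2 + 1) / p → ¬ OrbitLength (k - 1) m)) :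
    ∃ T : Subgroup G, IsSocle T := by
  classical
  let i1 : MulAction G P :=
    MulAction.compHom P ((MonoidHom.fst (Equiv.Perm P) (Equiv.Perm L)).comp G.subtype)
  let i2 : MulAction G L :=
    MulAction.compHom L ((MonoidHom.snd (Equiv.Perm P) (Equiv.Perm L)).comp G.subtype)
  have e1 : ∀ (g : G) (p : P), g • p = g.1.1 p := fun g p => rfl
  have e2 : ∀ (g : G) (l : L), g • l = g.1.2 l := fun g l => rfl
  have a1 : ∀ (g : G) (p : P) (l : L), I (g • p) (g • l) ↔ I p l := by
    intro g p l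
    rw [e1, e2]
    exact hG g.1 g.2 p l
  have a2 : ∀ g : G, (∀ p : P, g • p = p) → g = 1 := by
    intro g hg
    have h1 : ∀ p, g.1.1 p = p := fun p => hg p
    have h2 : ∀ l, g.1.2 l = l := by
      intro l
      by_contra hl
      have h3 : ∀ p, I p l → I p (g.1.2 l) := by
        intro p hpl
        have := (hG g.1 g.2 p l).2 hpl
        rwa [h1] at this
      have h4 : 1 < {p | I p l}.ncard := by rw [hI.card_on_line]; omega
      obtain ⟨p, q, hp1, hq1, hpq⟩ := (Set.one_lt_ncard_iff).1 h4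
      exact hl (hI.unique_line p q (g.1.2 l) l hpq (h3 p hp1) (h3 q hq1) hp1 hq1)
    apply Subtype.ext
    apply Prod.ext
    · exact Equiv.ext h1
    · exact Equiv.ext h2
  have a3 : ∀ p q : P, ∃ g : G, g • p = q := by
    intro p q
    obtain ⟨g, hg, hgp⟩ := ht p q
    exact ⟨⟨g, hg⟩, hgp⟩
  rcases hc with hsp | ⟨hkp, h2 | hm | ⟨p, ⟨hp, hps, hp2, hr⟩, hm⟩⟩
  · exact AS3.main hI hT hn (Nat.odd_iff.1 hodd) hk a1 a2 a3 hsp
  · exact M8.main hI hT hn (Nat.odd_iff.1 hodd) hk hkp a1 a2 a3 h2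
  · exact AS5.main hI hT hn (Nat.odd_iff.1 hodd) hk hkp a1 a2 a3 hm
  · exact J7.main hI hT hn (Nat.odd_iff.1 hodd) hk hkp a1 a2 a3 p hp hps hp2 hr hm

private theorem flag_all {P L : Type*} [Finite P] [Finite L] (I : P → L → Prop) (n k : ℕ)
    (hI : IsConfiguration I n k) (hT : TrilateralFree I) (hn : n = k * (k - 1) ^ 2 + k) (hodd : Odd k)
    (hk : 3 ≤ k) (G : Subgroup (Equiv.Perm P × Equiv.Perm L)) (hG : ∀ g ∈ G, ∀ p l, I (g.1 p) (g.2 l) ↔ I p l)
    (hfl : ∀ (p q : P) (l m : L), I p l → I q m → ∃ g ∈ G, g.1 p = q ∧ g.2 l = m) :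
    (∃ T : Subgroup G, IsSocle T ∧ ∀ N : Subgroup G, N.Normal → N ≠ ⊥ → T ≤ N) ∧
    (∀ N : Subgroup G, N.Normal → N ≠ ⊥ →
      (∃ e : ℕ, 3 ≤ e ∧ e ∣ k ∧ ∀ (x : P) (l : L), {y | I y l ∧ ∃ g ∈ N, g.1.1 x = y}.ncard = e) ∧
      (∃ e : ℕ, 3 ≤ e ∧ e ∣ k ∧ ∀ (l : L) (x : P), {m | I x m ∧ ∃ g ∈ N, g.1.2 l = m}.ncard = e)) ∧
    (k.Prime → ∀ N : Subgroup G, N.Normal → N ≠ ⊥ →
      ∀ (p q : P) (l m : L), I p l → I q m → ∃ g ∈ N, g.1.1 p = q ∧ g.1.2 l = m) := by
  let i1 : MulAction G P :=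
    MulAction.compHom P ((MonoidHom.fst (Equiv.Perm P) (Equiv.Perm L)).comp G.subtype)
  let i2 : MulAction G L :=
    MulAction.compHom L ((MonoidHom.snd (Equiv.Perm P) (Equiv.Perm L)).comp G.subtype)
  have a2 : ∀ g : G, (∀ p : P, g • p = p) → g = 1 := by
    intro g hg
    have h1 : ∀ p, g.1.1 p = p := fun p => hg p
    have h2 : ∀ l, g.1.2 l = l := by
      intro l
      by_contra hl
      have h3 : ∀ p, I p l → I p (g.1.2 l) := by
        intro p hpl
        have := (hG g.1 g.2 p l).2 hpl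
        rwa [h1] at this
      have h4 : 1 < {p | I p l}.ncard := by rw [hI.card_on_line]; omega
      obtain ⟨p, q, hp1, hq1, hpq⟩ := (Set.one_lt_ncard_iff).1 h4
      exact hl (hI.unique_line p q (g.1.2 l) l hpq (h3 p hp1) (h3 q hq1) hp1 hq1)
    apply Subtype.ext
    apply Prod.ext
    · exact Equiv.ext h1
    · exact Equiv.ext h2
  have a3 : ∀ (p q : P) (l m : L), I p l → I q m → ∃ g : G, g • p = q ∧ g • l = m := by
    intro p q l m hpl hqm
    obtain ⟨g, hg, h1, h2⟩ := hfl p q l m hpl hqm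
    exact ⟨⟨g, hg⟩, h1, h2⟩
  exact Z8.flag hI hT hn (Nat.odd_iff.1 hodd) hk (fun g p l => hG g.1 g.2 p l) a2 a3

/-- **Theorem.** Let `k ≥ 3` be odd, `I` a trilateral-free configuration `(n_k)` with `n = k (k - 1)² + k`, and `G` a
group of automorphisms of `I`. If `G` is transitive on the points, then the lengths `m` of the point orbits of every
normal subgroup `N ≠ 1` of `G` satisfy `OrbitLength`, and if `k` and `(k - 1)² + 1` are primes, then every such `N` is
transitive on the points. If `G` is transitive on the lines, then the same holds for the lines. If `G` is transitive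
on the points or on the lines, and if `(k - 1)² + 1` is a prime, or `k` is a prime and `k²` divides the order of `G`,
or `k` is a prime and no divisor `m` of `(k - 1)² + 1` satisfies `OrbitLength`, or `k` is a prime and for some `p`
with `Good` no divisor `m` of `((k - 1)² + 1) / p` satisfies `OrbitLength`, then `G` is almost simple. If `G` is flag
transitive, then `G` is almost simple, and its simple normal subgroup `T` lies in every normal subgroup `N ≠ 1` of
`G`; for every normal subgroup `N ≠ 1` of a flag transitive group `G` there is a divisor `e ≥ 3` of `k` such that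
every line has exactly `e` points in every point orbit of `N`, and dually; if `k` is a prime, then every normal
subgroup `N ≠ 1` of a flag transitive group `G` is flag transitive. -/
theorem result {P L : Type*} (I : P → L → Prop) (n k : ℕ) (hI : IsConfiguration I n k)
    (hT : TrilateralFree I) (hn : n = k * (k - 1) ^ 2 + k) (hodd : Odd k) (hk : 3 ≤ k)
    (G : Subgroup (Equiv.Perm P × Equiv.Perm L)) (hG : G ≤ autGroup I) :
    ((∀ p q : P, ∃ g ∈ G, g.1 p = q) → ∀ N : Subgroup G, N.Normal → N ≠ ⊥ →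
      (∀ x : P, OrbitLength (k - 1) {y | ∃ g ∈ N, g.1.1 x = y}.ncard) ∧
      (k.Prime → ((k - 1) ^ 2 + 1).Prime → ∀ x y : P, ∃ g ∈ N, g.1.1 x = y)) ∧
    ((∀ l m : L, ∃ g ∈ G, g.2 l = m) → ∀ N : Subgroup G, N.Normal → N ≠ ⊥ →
      (∀ x : L, OrbitLength (k - 1) {y | ∃ g ∈ N, g.1.2 x = y}.ncard) ∧
      (k.Prime → ((k - 1) ^ 2 + 1).Prime → ∀ x y : L, ∃ g ∈ N, g.1.2 x = y)) ∧
    ((∀ p q : P, ∃ g ∈ G, g.1 p = q) ∨ (∀ l m : L, ∃ g ∈ G, g.2 l = m) →
      (((k - 1) ^ 2 + 1).Prime ∨
        k.Prime ∧ (k ^ 2 ∣ Nat.card G ∨ (∀ m : ℕ, m ∣ (k - 1) ^ 2 + 1 → ¬ OrbitLength (k - 1) m) ∨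
          ∃ p : ℕ, Good (k - 1) p ∧ ∀ m : ℕ, m ∣ ((k - 1) ^ 2 + 1) / p → ¬ OrbitLength (k - 1) m)) →
      ∃ T : Subgroup G, IsSocle T) ∧
    ((∀ (p q : P) (l m : L), I p l → I q m → ∃ g ∈ G, g.1 p = q ∧ g.2 l = m) →
      (∃ T : Subgroup G, IsSocle T ∧ ∀ N : Subgroup G, N.Normal → N ≠ ⊥ → T ≤ N) ∧
      (∀ N : Subgroup G, N.Normal → N ≠ ⊥ →
        (∃ e : ℕ, 3 ≤ e ∧ e ∣ k ∧ ∀ (x : P) (l : L), {y | I y l ∧ ∃ g ∈ N, g.1.1 x = y}.ncard = e) ∧
        (∃ e : ℕ, 3 ≤ e ∧ e ∣ k ∧ ∀ (l : L) (x : P), {m | I x m ∧ ∃ g ∈ N, g.1.2 l = m}.ncard = e)) ∧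
      (k.Prime → ∀ N : Subgroup G, N.Normal → N ≠ ⊥ →
        ∀ (p q : P) (l m : L), I p l → I q m → ∃ g ∈ N, g.1.1 p = q ∧ g.1.2 l = m)) := by
  classical
  have : Finite P := Nat.finite_of_card_ne_zero (by rw [hI.card_points]; omega)
  have : Finite L := Nat.finite_of_card_ne_zero (by rw [hI.card_lines]; omega)
  obtain ⟨h1, h2, -, -⟩ := all_parts I n k hI hT hn hodd hk G hG
  have h3 : (∀ p q : P, ∃ g ∈ G, g.1 p = q) ∨ (∀ l m : L, ∃ g ∈ G, g.2 l = m) →
      (((k - 1) ^ 2 + 1).Prime ∨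
        k.Prime ∧ (k ^ 2 ∣ Nat.card G ∨ (∀ m : ℕ, m ∣ (k - 1) ^ 2 + 1 → ¬ OrbitLength (k - 1) m) ∨
          ∃ p : ℕ, Good (k - 1) p ∧ ∀ m : ℕ, m ∣ ((k - 1) ^ 2 + 1) / p → ¬ OrbitLength (k - 1) m)) →
      ∃ T : Subgroup G, IsSocle T := by
    rintro (ht | ht) hc
    · exact half I n k hI hT hn hodd hk G (fun g hg => hG hg) ht hc
    · obtain ⟨hI', hT'⟩ := dualize I n k hI hT
      let sw : Equiv.Perm P × Equiv.Perm L ≃* Equiv.Perm L × Equiv.Perm P := MulEquiv.prodComm
      let G' : Subgroup (Equiv.Perm L × Equiv.Perm P) := G.map sw.toMonoidHom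
      let e : G ≃* G' := G.equivMapOfInjective sw.toMonoidHom sw.injective
      have hcard : Nat.card G' = Nat.card G := (Nat.card_congr e.toEquiv).symm
      obtain ⟨T', t1, t2, ⟨a, b, hab⟩, t4⟩ := half (fun l p => I p l) n k hI' hT' hn hodd hk G' (by
        rintro _ ⟨g, hg, rfl⟩ l p
        exact hG hg p l) (by
        intro l m
        obtain ⟨g, hg, hgl⟩ := ht l m
        exact ⟨sw g, ⟨g, hg, rfl⟩, hgl⟩) (by rw [hcard]; exact hc)
      let f : T' ≃* T'.map e.symm.toMonoidHom := e.symm.subgroupMap T'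
      refine ⟨T'.map e.symm.toMonoidHom, t1.map _ e.symm.surjective, ?_, ?_, ?_⟩
      · have := f.symm.toEquiv.nontrivial
        exact IsSimpleGroup.isSimpleGroup_of_surjective f.toMonoidHom f.surjective
      · refine ⟨f a, f b, fun h => hab (f.injective ?_)⟩
        rw [map_mul, map_mul]
        exact h
      · rw [Subgroup.eq_bot_iff_forall]
        intro c hc'
        have h6 : e c ∈ Subgroup.centralizer (T' : Set G') := by
          rw [Subgroup.mem_centralizer_iff] at hc' ⊢
          intro h hh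
          have h7 := hc' (e.symm h) ⟨h, hh, rfl⟩
          have h8 := congrArg e h7
          rw [map_mul, map_mul, MulEquiv.apply_symm_apply] at h8
          exact h8
        rw [t4, Subgroup.mem_bot] at h6
        exact e.injective (h6.trans (map_one e).symm)
  exact ⟨fun ht N hN hne => ⟨(h1 ht N hN).1 hne, (h1 ht N hN).2.1 hne⟩,
    fun ht N hN hne => ⟨(h2 ht N hN).1 hne, (h2 ht N hN).2.1 hne⟩, h3,
    fun hfl => flag_all I n k hI hT hn hodd hk G (fun g hg => hG hg) hfl⟩

end Pool.Agent.Results.MP_e0c1ed_co.NormalOrbits
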