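import Mathlib

/-!
# Self-dual extremal trilateral-free configurations

If `k ≡ 3 (mod 4)` and there is a self-dual trilateral-free configuration `(n_k)` with
`n = k (k - 1)² + k` (a self-dual generalized quadrangle of order `(k - 1, k - 1)`), then
`2 (k - 1)` is a perfect square.
-/

namespace Pool.Agent.Results.MP_e0c1ed_co.SelfDualSquare

open Matrix Finset

/-- `I` is the incidence relation of a combinatorial configuration `(n_k)`: there are `n` points
and `n` lines, every line is incident with exactly `k` points, every point with exactly `k` lines,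
and two distinct points are incident with at most one common line. -/
structure IsConfiguration {P L : Type*} (I : P → L → Prop) (n k : ℕ) : Prop where
  card_points : Nat.card P = n
  card_lines : Nat.card L = n
  card_on_line : ∀ l, {p | I p l}.ncard = k
  card_through_point : ∀ p, {l | I p l}.ncard = k
  unique_line : ∀ p q l m, p ≠ q → I p l → I q l → I p m → I q m → l = m

/-- No trilateral: the Levi graph has no cycle of length `6`. -/
def TrilateralFree {P L : Type*} (I : P → L → Prop) : Prop :=
  ∀ p q r l m n, p ≠ q → q ≠ r → r ≠ p → l ≠ m → m ≠ n → n ≠ l →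
    ¬ (I p l ∧ I q l ∧ I q m ∧ I r m ∧ I r n ∧ I p n)

/-- Self-duality: points and lines can be interchanged. -/
def SelfDual {P L : Type*} (I : P → L → Prop) : Prop :=
  ∃ (φ : P ≃ L) (ψ : L ≃ P), ∀ p l, I p l ↔ I (ψ l) (φ p)

/-- `det (1 + (c - 1) E) = c ^ m` for an idempotent rational matrix `E` of trace `m`. -/
theorem det_idem {n : Type*} [Fintype n] [DecidableEq n] (E : Matrix n n ℚ) (hE : E * E = E)
    (c : ℚ) : ∃ m : ℕ, E.trace = m ∧ (1 + (c - 1) • E).det = c ^ m := by
  classical
  set f : (n → ℚ) →ₗ[ℚ] (n → ℚ) := Matrix.toLin' E with hf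
  have hff : ∀ x, f (f x) = f x := by
    intro x
    rw [hf, ← LinearMap.comp_apply, ← Matrix.toLin'_mul, hE]
  let b := Module.finBasis ℚ (LinearMap.range f)
  set m := Module.finrank ℚ (LinearMap.range f) with hm
  let ι : (Fin m → ℚ) →ₗ[ℚ] (n → ℚ) := (LinearMap.range f).subtype ∘ₗ b.equivFun.symm.toLinearMap
  let π : (n → ℚ) →ₗ[ℚ] (Fin m → ℚ) := b.equivFun.toLinearMap ∘ₗ f.rangeRestrict
  have h1 : ι ∘ₗ π = f := by
    ext1 x
    ext1
    simp [ι, π]
  have h2 : π ∘ₗ ι = LinearMap.id := by
    apply LinearMap.ext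
    intro x
    have h3 : f.rangeRestrict ((b.equivFun.symm x : LinearMap.range f) : n → ℚ)
        = b.equivFun.symm x := by
      obtain ⟨y, hy⟩ := (b.equivFun.symm x).2
      apply Subtype.ext
      change f ((b.equivFun.symm x : LinearMap.range f) : n → ℚ) = _
      rw [← hy, hff]
    change b.equivFun (f.rangeRestrict ((b.equivFun.symm x : LinearMap.range f) : n → ℚ)) = x
    rw [h3, LinearEquiv.apply_symm_apply]
  set A := LinearMap.toMatrix' ι with hA
  set B := LinearMap.toMatrix' π with hB
  have hAB : A * B = E := by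
    rw [hA, hB, ← LinearMap.toMatrix'_comp, h1, hf, LinearMap.toMatrix'_toLin']
  have hBA : B * A = 1 := by
    rw [hA, hB, ← LinearMap.toMatrix'_comp, h2, LinearMap.toMatrix'_id]
  refine ⟨m, ?_, ?_⟩
  · rw [← hAB, Matrix.trace_mul_comm, hBA, Matrix.trace_one, Fintype.card_fin]
  · rw [← hAB, ← Matrix.mul_smul, Matrix.det_one_add_mul_comm, Matrix.smul_mul, hBA]
    have h3 : (1 : Matrix (Fin m) (Fin m) ℚ) + (c - 1) • (1 : Matrix (Fin m) (Fin m) ℚ)
        = c • (1 : Matrix (Fin m) (Fin m) ℚ) := by
      rw [sub_smul, one_smul]; abel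
    rw [h3, Matrix.det_smul, Matrix.det_one, Fintype.card_fin, mul_one]

section

set_option linter.unusedSectionVars false

variable {P L : Type*} [Fintype P] [Fintype L]

open Classical in
/-- incidence matrix -/
noncomputable def inc (I : P → L → Prop) : Matrix P L ℚ := fun p l => if I p l then 1 else 0

theorem inc_sum_right (I : P → L → Prop) (p : P) :
    ∑ l, inc I p l = ({l | I p l}.ncard : ℚ) := by
  classical
  simp only [inc]
  rw [Finset.sum_boole, Set.ncard_eq_toFinset_card']
  congr 2
  ext; simp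

theorem inc_sum_left (I : P → L → Prop) (l : L) :
    ∑ p, inc I p l = ({p | I p l}.ncard : ℚ) := by
  classical
  simp only [inc]
  rw [Finset.sum_boole, Set.ncard_eq_toFinset_card']
  congr 2
  ext; simp

theorem inc_nonneg (I : P → L → Prop) (p : P) (l : L) : 0 ≤ inc I p l := by
  unfold inc; split_ifs <;> norm_num

theorem inc_of (I : P → L → Prop) {p : P} {l : L} (h : I p l) : inc I p l = 1 := by
  simp [inc, h]

theorem inc_of_not (I : P → L → Prop) {p : P} {l : L} (h : ¬ I p l) : inc I p l = 0 := by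
  simp [inc, h]

variable {I : P → L → Prop} {n k : ℕ}

/-- number of common points of two distinct lines -/
theorem common_le (hI : IsConfiguration I n k) {l m : L} (h : m ≠ l) :
    ∑ q, inc I q m * inc I q l ≤ 1 := by
  classical
  by_cases hex : ∃ q, I q m ∧ I q l
  · obtain ⟨q, hq1, hq2⟩ := hex
    rw [Finset.sum_eq_single q]
    · rw [inc_of I hq1, inc_of I hq2, one_mul]
    · intro r _ hr
      by_cases hr1 : I r m
      · by_cases hr2 : I r l
        · exact absurd (hI.unique_line r q m l hr hr1 hq1 hr2 hq2) h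
        · rw [inc_of_not I hr2, mul_zero]
      · rw [inc_of_not I hr1, zero_mul]
    · intro h'; exact absurd (Finset.mem_univ q) h'
  · rw [Finset.sum_eq_zero]
    · exact zero_le_one
    · intro r _
      by_cases hr1 : I r m
      · by_cases hr2 : I r l
        · exact absurd ⟨r, hr1, hr2⟩ hex
        · rw [inc_of_not I hr2, mul_zero]
      · rw [inc_of_not I hr1, zero_mul]

theorem common_eq (hI : IsConfiguration I n k) {l m : L} (h : m ≠ l) {p : P} (h1 : I p m)
    (h2 : I p l) : ∑ q, inc I q m * inc I q l = 1 := by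
  apply le_antisymm (common_le hI h)
  calc (1 : ℚ) = inc I p m * inc I p l := by rw [inc_of I h1, inc_of I h2, one_mul]
    _ ≤ _ := Finset.single_le_sum
      (f := fun q => inc I q m * inc I q l)
      (fun q _ => mul_nonneg (inc_nonneg I q m) (inc_nonneg I q l)) (Finset.mem_univ p)

theorem common_self (hI : IsConfiguration I n k) (l : L) :
    ∑ q, inc I q l * inc I q l = k := by
  have h : ∀ q, inc I q l * inc I q l = inc I q l := by
    intro q; unfold inc; split_ifs <;> simp
  rw [Finset.sum_congr rfl (fun q _ => h q), inc_sum_left, hI.card_on_line]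

theorem key_entry (hI : IsConfiguration I n k) (hT : TrilateralFree I)
    (hn : n = k * (k - 1) ^ 2 + k) (hk : 1 ≤ k) (p : P) (l : L) :
    ∑ m, inc I p m * ∑ q, inc I q m * inc I q l = (2 * (k : ℚ) - 2) * inc I p l + 1 := by
  classical
  -- incident pairs
  have hinc : ∀ l, I p l → ∑ m, inc I p m * ∑ q, inc I q m * inc I q l = 2 * (k : ℚ) - 1 := by
    intro l hl
    have h1 : ∀ m, inc I p m * ∑ q, inc I q m * inc I q l
        = inc I p m + if m = l then ((k : ℚ) - 1) else 0 := by
      intro m
      by_cases hm : m = l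
      · subst hm
        rw [common_self hI, inc_of I hl, if_pos rfl]; ring
      · rw [if_neg hm]
        by_cases hpm : I p m
        · rw [common_eq hI hm hpm hl, inc_of I hpm]; ring
        · rw [inc_of_not I hpm]; ring
    rw [Finset.sum_congr rfl (fun m _ => h1 m), Finset.sum_add_distrib, inc_sum_right,
      hI.card_through_point, Finset.sum_ite_eq' Finset.univ l, if_pos (Finset.mem_univ l)]
    ring
  -- non-incident pairs
  have hnon : ∀ l, ¬ I p l → ∑ m, inc I p m * ∑ q, inc I q m * inc I q l ≤ 1 := by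
    intro l hl
    by_cases hex : ∃ m q, I p m ∧ I q m ∧ I q l
    · obtain ⟨m, q, hpm, hqm, hql⟩ := hex
      have hml : m ≠ l := by rintro rfl; exact hl hpm
      rw [Finset.sum_eq_single m]
      · rw [common_eq hI hml hqm hql, inc_of I hpm, one_mul]
      · intro m' _ hm'
        by_cases hpm' : I p m'
        · have : ∑ q, inc I q m' * inc I q l = 0 := by
            apply Finset.sum_eq_zero
            intro q' _
            by_cases hq1 : I q' m'
            · by_cases hq2 : I q' l
              · exfalso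
                have hpq : p ≠ q := by rintro rfl; exact hl hql
                have hpq' : q' ≠ p := by rintro rfl; exact hl hq2
                have hqq' : q ≠ q' := by
                  rintro rfl
                  exact hm' (hI.unique_line p q m' m hpq hpm' hq1 hpm hqm)
                have hlm' : l ≠ m' := by rintro rfl; exact hl hpm'
                exact hT p q q' m l m' hpq hqq' hpq' hml hlm' hm'
                  ⟨hpm, hqm, hql, hq2, hq1, hpm'⟩
              · rw [inc_of_not I hq2, mul_zero]
            · rw [inc_of_not I hq1, zero_mul]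
          rw [this, mul_zero]
        · rw [inc_of_not I hpm', zero_mul]
      · intro h; exact absurd (Finset.mem_univ m) h
    · rw [Finset.sum_eq_zero]
      · exact zero_le_one
      · intro m _
        by_cases hpm : I p m
        · rw [Finset.sum_eq_zero, mul_zero]
          intro q _
          by_cases hq1 : I q m
          · by_cases hq2 : I q l
            · exact absurd ⟨m, q, hpm, hq1, hq2⟩ hex
            · rw [inc_of_not I hq2, mul_zero]
          · rw [inc_of_not I hq1, zero_mul]
        · rw [inc_of_not I hpm, zero_mul]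
  -- every defect is nonpositive
  have hle : ∀ l, (∑ m, inc I p m * ∑ q, inc I q m * inc I q l)
      - ((2 * (k : ℚ) - 2) * inc I p l + 1) ≤ 0 := by
    intro l
    by_cases hl : I p l
    · rw [hinc l hl, inc_of I hl]; linarith
    · have := hnon l hl
      rw [inc_of_not I hl]; linarith
  -- the sum of the defects vanishes
  have hk1 : ((k - 1 : ℕ) : ℚ) = (k : ℚ) - 1 := by
    rw [Nat.cast_sub hk, Nat.cast_one]
  have hcard : (Fintype.card L : ℚ) = (k : ℚ) * ((k : ℚ) - 1) ^ 2 + k := by
    rw [← Nat.card_eq_fintype_card, hI.card_lines, hn]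
    push_cast [hk1]
    ring
  have hsum : ∑ l, ((∑ m, inc I p m * ∑ q, inc I q m * inc I q l)
      - ((2 * (k : ℚ) - 2) * inc I p l + 1)) = 0 := by
    rw [Finset.sum_sub_distrib, Finset.sum_add_distrib, ← Finset.mul_sum, inc_sum_right,
      hI.card_through_point, Finset.sum_const, Finset.card_univ, nsmul_eq_mul, hcard, mul_one]
    have h1 : ∑ l, ∑ m, inc I p m * ∑ q, inc I q m * inc I q l = (k : ℚ) * k * k := by
      rw [Finset.sum_comm]
      have h2 : ∀ m, ∑ l, inc I p m * ∑ q, inc I q m * inc I q l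
          = inc I p m * ((k : ℚ) * k) := by
        intro m
        rw [← Finset.mul_sum, Finset.sum_comm]
        congr 1
        have h3 : ∀ q, ∑ l, inc I q m * inc I q l = inc I q m * (k : ℚ) := by
          intro q
          rw [← Finset.mul_sum, inc_sum_right, hI.card_through_point]
        rw [Finset.sum_congr rfl (fun q _ => h3 q), ← Finset.sum_mul, inc_sum_left,
          hI.card_on_line]
      rw [Finset.sum_congr rfl (fun m _ => h2 m), ← Finset.sum_mul, inc_sum_right,
        hI.card_through_point]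
      ring
    rw [h1]
    ring
  have h0 := (Finset.sum_eq_zero_iff_of_nonpos (fun l _ => hle l)).1 hsum l (Finset.mem_univ l)
  linarith

end

/-- **Theorem.** Let `k ≡ 3 (mod 4)`. If a self-dual trilateral-free configuration `(n_k)` with
`n = k (k - 1)² + k` exists, then `2 (k - 1)` is a perfect square. -/
theorem result.{u, v} {P : Type u} {L : Type v} [Finite P] [Finite L] (I : P → L → Prop)
    (n k : ℕ) (hk : k % 4 = 3) (hI : IsConfiguration I n k) (hT : TrilateralFree I)
    (hn : n = k * (k - 1) ^ 2 + k) (hD : SelfDual I) : IsSquare (2 * (k - 1)) := by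
  classical
  have : Fintype P := Fintype.ofFinite P
  have : Fintype L := Fintype.ofFinite L
  obtain ⟨φ, ψ, hφ⟩ := hD
  obtain ⟨a, ha⟩ : ∃ a, k = 4 * a + 3 := ⟨k / 4, by omega⟩
  have hk1 : 1 ≤ k := by omega
  set N : Matrix P L ℚ := inc I with hN
  obtain ⟨J, hJ⟩ : ∃ J : Matrix P P ℚ, ∀ p q, J p q = 1 := ⟨fun _ _ => 1, fun _ _ => rfl⟩
  obtain ⟨J', hJ'⟩ : ∃ J' : Matrix P L ℚ, ∀ p q, J' p q = 1 := ⟨fun _ _ => 1, fun _ _ => rfl⟩
  set s : ℚ := (k : ℚ) - 1 with hs
  have hk3 : (3 : ℚ) ≤ k := by exact_mod_cast (by omega : 3 ≤ k)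
  have hs2 : 2 ≤ s := by rw [hs]; linarith
  have hks : (k : ℚ) = s + 1 := by rw [hs]; ring
  have hs0 : (2 * s) ≠ 0 := by nlinarith
  have hs1 : s ^ 2 + 1 ≠ 0 := by positivity
  have hcard : (Fintype.card P : ℚ) = (k : ℚ) * (s ^ 2 + 1) := by
    rw [← Nat.card_eq_fintype_card, hI.card_points, hn]
    have : ((k - 1 : ℕ) : ℚ) = s := by rw [Nat.cast_sub hk1, Nat.cast_one]
    push_cast [this]
    ring
  have hrow : ∀ p, ∑ l, N p l = k := by
    intro p; rw [hN, inc_sum_right, hI.card_through_point]
  have hcol : ∀ l, ∑ p, N p l = k := by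
    intro l; rw [hN, inc_sum_left, hI.card_on_line]
  set M : Matrix P P ℚ := N * Nᵀ with hM
  -- `M² = 2 s M + k J`
  have hMM : M * M = (2 * s) • M + (k : ℚ) • J := by
    have h1 : N * (Nᵀ * N) = (2 * s) • N + J' := by
      ext p l
      rw [Matrix.mul_apply]
      have h2 := key_entry hI hT hn hk1 p l
      have h3 : ∀ m, (Nᵀ * N) m l = ∑ q, inc I q m * inc I q l := by
        intro m; rw [Matrix.mul_apply]; rfl
      rw [Finset.sum_congr rfl (fun m _ => by rw [h3 m])]
      rw [h2]
      simp only [Matrix.add_apply, Matrix.smul_apply, smul_eq_mul, hN, hs, hJ']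
      ring
    calc M * M = (N * (Nᵀ * N)) * Nᵀ := by rw [hM]; simp only [Matrix.mul_assoc]
      _ = ((2 * s) • N + J') * Nᵀ := by rw [h1]
      _ = (2 * s) • M + (k : ℚ) • J := by
        rw [Matrix.add_mul, Matrix.smul_mul]
        congr 1
        ext p q
        rw [Matrix.mul_apply]
        simp only [Matrix.transpose_apply, one_mul, Matrix.smul_apply, hJ, hJ', smul_eq_mul,
          mul_one]
        exact hrow q
  have hNt : ∀ (p q : P), M p q = ∑ l, N p l * N q l := by
    intro p q; rw [hM, Matrix.mul_apply]; rfl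
  have hMJ : M * J = ((k : ℚ) * k) • J := by
    ext p q
    rw [Matrix.mul_apply]
    simp only [hJ, mul_one, Matrix.smul_apply, smul_eq_mul]
    rw [Finset.sum_congr rfl (fun r _ => hNt p r), Finset.sum_comm]
    rw [Finset.sum_congr rfl (fun l _ => (Finset.mul_sum _ _ _).symm)]
    rw [Finset.sum_congr rfl (fun l _ => by rw [hcol l]), ← Finset.sum_mul, hrow]
  have hMt : Mᵀ = M := by rw [hM, Matrix.transpose_mul, Matrix.transpose_transpose]
  have hJt : Jᵀ = J := by ext p q; rw [Matrix.transpose_apply, hJ, hJ]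
  have hJM : J * M = ((k : ℚ) * k) • J := by
    have := congrArg Matrix.transpose hMJ
    rwa [Matrix.transpose_mul, Matrix.transpose_smul, hMt, hJt] at this
  have hJJ : J * J = ((k : ℚ) * (s ^ 2 + 1)) • J := by
    ext p q
    rw [Matrix.mul_apply]
    simp only [hJ, mul_one, Matrix.smul_apply, smul_eq_mul, Finset.sum_const, Finset.card_univ,
      nsmul_eq_mul, hcard]
  -- the duality matrix
  set T : Matrix P P ℚ := fun p q => N p (φ q) with hTdef
  have hTT : T * Tᵀ = M := by
    ext p q
    rw [Matrix.mul_apply, hNt]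
    exact Equiv.sum_comp φ (fun l => N p l * N q l)
  have hN1 : ∀ p q, N p (φ q) = N (ψ (φ q)) (φ p) := by
    intro p q
    simp only [hN, inc, hφ p (φ q)]
  have hN2 : ∀ p l, N (ψ (φ p)) (φ (ψ l)) = N p l := by
    intro p l
    have h : I p l ↔ I (ψ (φ p)) (φ (ψ l)) := by rw [hφ p l, hφ (ψ l) (φ p)]
    simp only [hN, inc, h]
  have hTT' : Tᵀ * T = M := by
    ext q q'
    rw [Matrix.mul_apply]
    calc ∑ p, Tᵀ q p * T p q' = ∑ p, N (ψ (φ q)) (φ p) * N (ψ (φ q')) (φ p) := by
          apply Finset.sum_congr rfl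
          intro p _
          change N p (φ q) * N p (φ q') = _
          rw [hN1 p q, hN1 p q']
      _ = ∑ l, N (ψ (φ q)) l * N (ψ (φ q')) l :=
          Equiv.sum_comp φ (fun l => N (ψ (φ q)) l * N (ψ (φ q')) l)
      _ = ∑ l, N (ψ (φ q)) (φ (ψ l)) * N (ψ (φ q')) (φ (ψ l)) :=
          (Equiv.sum_comp (ψ.trans φ) (fun l => N (ψ (φ q)) l * N (ψ (φ q')) l)).symm
      _ = ∑ l, N q l * N q' l := by
          apply Finset.sum_congr rfl
          intro l _
          rw [hN2, hN2]
      _ = M q q' := (hNt q q').symm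
  have hTJ : T * J = (k : ℚ) • J := by
    ext p q
    rw [Matrix.mul_apply]
    simp only [hJ, mul_one, Matrix.smul_apply, smul_eq_mul, hTdef]
    rw [Equiv.sum_comp φ (fun l => N p l), hrow]
  have hJT : J * T = (k : ℚ) • J := by
    ext p q
    rw [Matrix.mul_apply]
    simp only [hJ, one_mul, Matrix.smul_apply, smul_eq_mul, mul_one, hTdef]
    exact hcol (φ q)
  have hTM : T * M = M * T := by
    calc T * M = T * (Tᵀ * T) := by rw [hTT']
      _ = (T * Tᵀ) * T := by rw [Matrix.mul_assoc]
      _ = M * T := by rw [hTT]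
  -- the idempotent
  set c : ℚ := (k : ℚ) / (s ^ 2 + 1) with hc
  have hcs : c * (s ^ 2 + 1) = k := by rw [hc]; field_simp
  set E : Matrix P P ℚ := (1 / (2 * s)) • (M - c • J) with hE
  have h2sE : (2 * s) • E = M - c • J := by
    rw [hE, smul_smul, mul_one_div_cancel hs0, one_smul]
  have hEM : E * M = (2 * s) • E := by
    rw [h2sE, hE, Matrix.smul_mul, Matrix.sub_mul, Matrix.smul_mul, hMM, hJM]
    ext p q
    simp only [Matrix.smul_apply, Matrix.sub_apply, Matrix.add_apply, smul_eq_mul, hJ, mul_one]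
    rw [one_div, inv_mul_eq_iff_eq_mul₀ hs0]
    have : (k : ℚ) - c * (k * k) = - (2 * s * c) := by
      have e : c * (s ^ 2 + 1) = s + 1 := by rw [hcs, hks]
      rw [hks]
      linear_combination -e
    linear_combination this
  have hEJ : E * J = 0 := by
    rw [hE, Matrix.smul_mul, Matrix.sub_mul, Matrix.smul_mul, hMJ, hJJ]
    ext p q
    simp only [Matrix.smul_apply, Matrix.sub_apply, smul_eq_mul, hJ, mul_one, Matrix.zero_apply]
    have : c * ((k : ℚ) * (s ^ 2 + 1)) = k * k := by
      rw [mul_left_comm, hcs]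
    rw [this, sub_self, mul_zero]
  have hEE : E * E = E := by
    have h1 : (2 * s) • (E * E) = (2 * s) • E := by
      rw [← Matrix.mul_smul, h2sE, Matrix.mul_sub, Matrix.mul_smul, hEJ, hEM, smul_zero, sub_zero,
        h2sE]
    have h2 := congrArg (fun X => (1 / (2 * s)) • X) h1
    simpa only [smul_smul, one_div_mul_cancel hs0, one_smul] using h2
  have hEt : Eᵀ = E := by
    rw [hE, Matrix.transpose_smul, Matrix.transpose_sub, Matrix.transpose_smul, hMt, hJt]
  have hTE : T * E = E * T := by
    rw [hE, Matrix.mul_smul, Matrix.smul_mul, Matrix.mul_sub, Matrix.sub_mul, Matrix.mul_smul,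
      Matrix.smul_mul, hTM, hTJ, hJT]
  obtain ⟨m, hm, hdet⟩ := det_idem E hEE (2 * s)
  -- trace
  have htr : (2 * s) * E.trace = (k : ℚ) * k * s ^ 2 := by
    have h1 : (2 * s) * E.trace = (M - c • J).trace := by
      have := congrArg Matrix.trace h2sE
      rwa [Matrix.trace_smul, smul_eq_mul] at this
    have h2 : M.trace = (k : ℚ) * (s ^ 2 + 1) * k := by
      rw [Matrix.trace]
      have : ∀ p, M.diag p = k := by
        intro p
        rw [Matrix.diag_apply, hNt]
        have h3 : ∀ l, N p l * N p l = N p l := by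
          intro l; simp only [hN, inc]; split_ifs <;> simp
        rw [Finset.sum_congr rfl (fun l _ => h3 l), hrow]
      rw [Finset.sum_congr rfl (fun p _ => this p), Finset.sum_const, Finset.card_univ,
        nsmul_eq_mul, hcard]
    have h3 : J.trace = (k : ℚ) * (s ^ 2 + 1) := by
      rw [Matrix.trace]
      simp only [Matrix.diag_apply, hJ, Finset.sum_const, Finset.card_univ, nsmul_eq_mul, hcard,
        mul_one]
    rw [h1, Matrix.trace_sub, Matrix.trace_smul, h2, h3, smul_eq_mul]
    have : c * ((k : ℚ) * (s ^ 2 + 1)) = k * k := by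
      rw [mul_left_comm, hcs]
    rw [this]; ring
  have hmodd : m = (4 * a + 3) ^ 2 * (2 * a + 1) := by
    have h1 : (2 * s) * (m : ℚ) = (k : ℚ) * k * s ^ 2 := by rw [← hm]; exact htr
    have hka : (k : ℚ) = 4 * a + 3 := by rw [ha]; push_cast; ring
    have hsa : s = 4 * a + 2 := by rw [hs, hka]; ring
    have h2 : (m : ℚ) = (4 * a + 3) ^ 2 * (2 * a + 1) := by
      have h3 : (2 * s) * (m : ℚ) = (2 * s) * ((4 * a + 3) ^ 2 * (2 * a + 1)) := by
        rw [h1, hka, hsa]; ring
      exact mul_left_cancel₀ hs0 h3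
    exact_mod_cast h2
  -- the matrix `X`
  set X : Matrix P P ℚ := T * E + (1 - E) with hX
  have hXX : X * Xᵀ = 1 + (2 * s - 1) • E := by
    have hXt : Xᵀ = E * Tᵀ + (1 - E) := by
      rw [hX, Matrix.transpose_add, Matrix.transpose_mul, Matrix.transpose_sub,
        Matrix.transpose_one, hEt]
    have e1 : T * E * (E * Tᵀ) = (2 * s) • E := by
      calc T * E * (E * Tᵀ) = T * (E * E) * Tᵀ := by simp only [Matrix.mul_assoc]
        _ = (T * E) * Tᵀ := by rw [hEE]
        _ = E * (T * Tᵀ) := by rw [hTE, Matrix.mul_assoc]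
        _ = (2 * s) • E := by rw [hTT, hEM]
    have e2 : T * E * (1 - E) = 0 := by
      rw [Matrix.mul_sub, Matrix.mul_one, Matrix.mul_assoc, hEE, sub_self]
    have e3 : (1 - E) * (E * Tᵀ) = 0 := by
      rw [Matrix.sub_mul, Matrix.one_mul, ← Matrix.mul_assoc, hEE, sub_self]
    have e4 : (1 - E) * (1 - E) = 1 - E := by
      rw [Matrix.sub_mul, Matrix.one_mul, Matrix.mul_sub, Matrix.mul_one, hEE, sub_self, sub_zero]
    rw [hXt, hX, Matrix.add_mul, Matrix.mul_add, Matrix.mul_add, e1, e2, e3, e4, sub_smul, one_smul]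
    abel
  have hsq : X.det * X.det = (2 * s) ^ m := by
    rw [← hdet, ← hXX, Matrix.det_mul, Matrix.det_transpose]
  obtain ⟨b, hb⟩ : ∃ b, m = 2 * b + 1 := by
    have : Odd m := by
      rw [hmodd]
      apply Odd.mul
      · apply Odd.pow; exact ⟨2 * a + 1, by ring⟩
      · exact ⟨a, rfl⟩
    obtain ⟨b, hb⟩ := this
    exact ⟨b, hb⟩
  have hsqr : IsSquare ((2 * (k - 1) : ℕ) : ℚ) := by
    refine ⟨X.det / (2 * s) ^ b, ?_⟩
    have h1 : ((2 * (k - 1) : ℕ) : ℚ) = 2 * s := by
      rw [Nat.cast_mul, Nat.cast_sub hk1, Nat.cast_one, Nat.cast_ofNat]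
    rw [h1, div_mul_div_comm, hsq, hb]
    field_simp
    ring
  exact Rat.isSquare_natCast_iff.1 hsqr

end Pool.Agent.Results.MP_e0c1ed_co.SelfDualSquare
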