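import Pool.Agent.Lib.MP_e0c1ed_co.V8
import Pool.Agent.Lib.MP_e0c1ed_co.R3
import Pool.Agent.Lib.MP_e0c1ed_co.R4

/-!
# Solvable normal subgroups of transitive automorphism groups of extremal trilateral-free configurations

Let `k ≥ 3` and let a trilateral-free configuration `(n_k)` with `n = k (k - 1)² + k` be given (a generalized
quadrangle of order `(s, s)`, `s = k - 1`). Let `G` be a group of automorphisms transitive on the points or on the
lines. If `k` is odd, then every solvable normal subgroup of `G` is trivial; in particular `G` is not solvable. If `k`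
is even, then every solvable normal subgroup `N ≠ 1` of `G` has even order, unless `k ≡ 2` modulo `4` and
`((k - 1)² + 1) / 2` is a prime power. If `G` is transitive on the flags and `k` is not a power of `2`, then every
solvable normal subgroup of `G` is trivial; in particular `G` is not solvable. If `G` is transitive on the flags and
`N ≠ 1` is any normal subgroup, then all point orbits of `N` have the same length `m`, and `m` is `k`, `2 k` or
`f ((k - 1)² + 1)` with a divisor `f` of `k`, or `(k, m)` is `(8, 80)`, `(14, 119)` or `(18, 87)`; dually for lines.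
-/

set_option autoImplicit false

namespace Pool.Agent.Results.MP_e0c1ed_co.TransitiveRadical

open Pool.Agent.Results.MP_e0c1ed_co.SelfDualSquare
open Pool.Agent.Lib.MP_e0c1ed_co.Aut (autGroup)

/-- `m` is `k`, `2 k` or `f ((k - 1)² + 1)` with a divisor `f` of `k`, or `(k, m)` is `(8, 80)`, `(14, 119)` or
`(18, 87)`. -/
def Length (k m : ℕ) : Prop :=
  m = k ∨ m = 2 * k ∨ (∃ f, f ∣ k ∧ m = f * ((k - 1) ^ 2 + 1)) ∨ (k = 8 ∧ m = 80) ∨
    (k = 14 ∧ m = 119) ∨ (k = 18 ∧ m = 87)

private theorem not_solvable {P L : Type*} (I : P → L → Prop) (n k : ℕ) (hI : IsConfiguration I n k)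
    (hn : n = k * (k - 1) ^ 2 + k) (hk : 3 ≤ k) (G : Subgroup (Equiv.Perm P × Equiv.Perm L))
    (ht : (∀ p q : P, ∃ g ∈ G, g.1 p = q) ∨ (∀ l m : L, ∃ g ∈ G, g.2 l = m))
    (key : ∀ N : Subgroup G, N.Normal → Group.IsSolvable N → N = ⊥) : ¬ Group.IsSolvable G := by
  classical
  have : Finite P := Nat.finite_of_card_ne_zero (by rw [hI.card_points]; omega)
  have : Finite L := Nat.finite_of_card_ne_zero (by rw [hI.card_lines]; omega)
  intro hsol
  have h1 : (⊤ : Subgroup G) = ⊥ := key ⊤ inferInstance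
    (Group.isSolvable_of_surjective (f := (Subgroup.topEquiv (G := G)).symm.toMonoidHom)
      (Subgroup.topEquiv (G := G)).symm.surjective)
  have h2 : ∀ g ∈ G, g = 1 := by
    intro g hg
    have h3 : (⟨g, hg⟩ : G) ∈ (⊤ : Subgroup G) := Subgroup.mem_top _
    rw [h1, Subgroup.mem_bot] at h3
    exact congrArg Subtype.val h3
  have hn2 : 2 ≤ n := by rw [hn]; omega
  rcases ht with ht | ht
  · have h4 : 1 < Nat.card P := by rw [hI.card_points]; omega
    have := Finite.one_lt_card_iff_nontrivial.1 h4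
    obtain ⟨p, q, hpq⟩ := exists_pair_ne P
    obtain ⟨g, hg, hgp⟩ := ht p q
    rw [h2 g hg] at hgp
    exact hpq hgp
  · have h4 : 1 < Nat.card L := by rw [hI.card_lines]; omega
    have := Finite.one_lt_card_iff_nontrivial.1 h4
    obtain ⟨p, q, hpq⟩ := exists_pair_ne L
    obtain ⟨g, hg, hgp⟩ := ht p q
    rw [h2 g hg] at hgp
    exact hpq hgp

/-- **Theorem.** Let `k ≥ 3`, `I` a trilateral-free configuration `(n_k)` with `n = k (k - 1)² + k`, and `G` a group of
automorphisms of `I`, transitive on the points or on the lines. If `k` is odd, then every solvable normal subgroup of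
`G` is trivial, and `G` is not solvable. If `k` is even, then every solvable normal subgroup `N ≠ 1` of `G` has even
order, or `k ≡ 2` modulo `4` and `(k - 1)² + 1` is twice a prime power. If `G` is transitive on the flags and `k` is
not a power of `2`, then every solvable normal subgroup of `G` is trivial, and `G` is not solvable. If `G` is
transitive on the flags and `N ≠ 1` is a normal subgroup, then all point orbits of `N` have the same length, one of the
numbers above, and all line orbits of `N` have the same length, one of the numbers above. -/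
theorem result {P L : Type*} (I : P → L → Prop) (n k : ℕ) (hI : IsConfiguration I n k)
    (hT : TrilateralFree I) (hn : n = k * (k - 1) ^ 2 + k) (hk : 3 ≤ k)
    (G : Subgroup (Equiv.Perm P × Equiv.Perm L)) (hG : G ≤ autGroup I)
    (ht : (∀ p q : P, ∃ g ∈ G, g.1 p = q) ∨ (∀ l m : L, ∃ g ∈ G, g.2 l = m)) :
    (Odd k → (∀ N : Subgroup G, N.Normal → Group.IsSolvable N → N = ⊥) ∧ ¬ Group.IsSolvable G) ∧
    (Even k → ∀ N : Subgroup G, N.Normal → Group.IsSolvable N → N ≠ ⊥ →
      Even (Nat.card N) ∨ (k % 4 = 2 ∧ ∃ q b : ℕ, q.Prime ∧ (k - 1) ^ 2 + 1 = 2 * q ^ b)) ∧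
    ((∀ i : ℕ, k ≠ 2 ^ i) →
      (∀ (p q : P) (l m : L), I p l → I q m → ∃ g ∈ G, g.1 p = q ∧ g.2 l = m) →
      (∀ N : Subgroup G, N.Normal → Group.IsSolvable N → N = ⊥) ∧ ¬ Group.IsSolvable G) ∧
    ((∀ (p q : P) (l m : L), I p l → I q m → ∃ g ∈ G, g.1 p = q ∧ g.2 l = m) →
      ∀ N : Subgroup G, N.Normal → N ≠ ⊥ →
      (∃ m : ℕ, Length k m ∧ ∀ x : P, {y | ∃ g ∈ N, g.1.1 x = y}.ncard = m) ∧
      ∃ m : ℕ, Length k m ∧ ∀ l : L, {j | ∃ g ∈ N, g.1.2 l = j}.ncard = m) :=
  ⟨fun hodd => Pool.Agent.Lib.MP_e0c1ed_co.K8.all_odd I n k hI hT hn hodd hk G hG ht,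
    fun _ N hN hS hne => (Pool.Agent.Lib.MP_e0c1ed_co.V8.all_k I n k hI hT hn hk G hG ht N hN hS hne).2,
    fun hk2 hfl =>
      have key := Pool.Agent.Lib.MP_e0c1ed_co.R3.all I n k hI hT hn hk hk2 G hG hfl
      ⟨key, not_solvable I n k hI hn hk G ht key⟩,
    fun hfl N hN hne => Pool.Agent.Lib.MP_e0c1ed_co.R4.all I n k hI hT hn hk G hG hfl N hN hne⟩

end Pool.Agent.Results.MP_e0c1ed_co.TransitiveRadical
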